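import Mathlib

/-!
Helpers for the permanental Q-polynomial: a fast evaluation of permanents of `Fin n` matrices of
natural numbers, and uniqueness of digits.
-/

namespace Pool.Agent.J6H51.PermQ

open Finset

/-- digits are unique. -/
theorem digits_unique (B : ℕ) (hB : 0 < B) :
    ∀ (K : ℕ) (c d : ℕ → ℕ), (∀ k, c k < B) → (∀ k, d k < B) →
      ∑ k ∈ range K, c k * B ^ k = ∑ k ∈ range K, d k * B ^ k → ∀ k < K, c k = d k := by
  intro K
  induction K with
  | zero => intro c d _ _ _ k hk; omega
  | succ K ih =>
    intro c d hc hd h k hk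
    rw [Finset.sum_range_succ', Finset.sum_range_succ'] at h
    have e : ∀ f : ℕ → ℕ, ∑ k ∈ range K, f (k + 1) * B ^ (k + 1)
        = B * ∑ k ∈ range K, f (k + 1) * B ^ k := by
      intro f
      rw [Finset.mul_sum]
      refine Finset.sum_congr rfl fun k _ => ?_
      ring
    rw [e, e] at h
    simp only [pow_zero, mul_one] at h
    have h0 : c 0 = d 0 := by
      have := congrArg (· % B) h
      simp only [Nat.mul_add_mod] at this
      rwa [Nat.mod_eq_of_lt (hc 0), Nat.mod_eq_of_lt (hd 0)] at this
    rcases k with _ | k
    · exact h0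
    · rw [h0] at h
      have h1 := Nat.add_right_cancel h
      have h2 := Nat.eq_of_mul_eq_mul_left hB h1
      exact ih (fun k => c (k + 1)) (fun k => d (k + 1)) (fun k => hc _) (fun k => hd _) h2 k
        (by omega)

theorem sum_by_key {γ S : Type*} [Fintype γ] [AddCommMonoid S] (K : ℕ) (u : γ → ℕ)
    (hu : ∀ a, u a < K) (ψ : ℕ → S) :
    ∑ a, ψ (u a) = ∑ k ∈ range K, (Finset.univ.filter (fun a => u a = k)).card • ψ k := by
  classical
  rw [← Finset.sum_fiberwise_of_maps_to (s := Finset.univ) (t := range K) (g := u)
    (fun a _ => Finset.mem_range.2 (hu a))]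
  refine Finset.sum_congr rfl fun k _ => ?_
  rw [Finset.sum_congr rfl (g := fun _ => ψ k)
    (fun a ha => by rw [(Finset.mem_filter.1 ha).2])]
  rw [Finset.sum_const]

/-- If the generating sums of two exponent functions agree in a large base then all sums of
functions of the exponents agree. -/
theorem sum_eq_of_kron {α β R : Type*} [Fintype α] [Fintype β] [AddCommMonoid R] (B K : ℕ)
    (f : α → ℕ) (g : β → ℕ) (hα : Fintype.card α < B) (hβ : Fintype.card β < B)
    (hf : ∀ a, f a < K) (hg : ∀ b, g b < K)
    (h : ∑ a, B ^ f a = ∑ b, B ^ g b) (φ : ℕ → R) :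
    ∑ a, φ (f a) = ∑ b, φ (g b) := by
  classical
  have h' := h
  rw [sum_by_key K f hf (fun k => B ^ k), sum_by_key K g hg (fun k => B ^ k)] at h'
  simp only [smul_eq_mul] at h'
  have hd := digits_unique B (by omega) K _ _
    (fun k => lt_of_le_of_lt (Finset.card_le_univ _) hα)
    (fun k => lt_of_le_of_lt (Finset.card_le_univ _) hβ) h'
  rw [sum_by_key K f hf φ, sum_by_key K g hg φ]
  refine Finset.sum_congr rfl fun k hk => ?_
  rw [hd k (Finset.mem_range.1 hk)]

/-- all ways to take an element `b` out of `a :: l` other than `a`, with `a` put in its place. -/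
def sets {α : Type*} (a : α) : List α → List (α × List α)
  | [] => []
  | b :: l => (b, a :: l) :: (sets a l).map (fun q => (q.1, b :: q.2))

theorem length_sets {α : Type*} (a : α) (l : List α) : (sets a l).length = l.length := by
  induction l with
  | nil => rfl
  | cons b l ih => simp [sets, ih]

theorem getElem_sets {α : Type*} (a : α) (l : List α) (k : ℕ) (hk : k < (sets a l).length) :
    (sets a l)[k] = (l[k]'(by rwa [length_sets] at hk), l.set k a) := by
  induction l generalizing k with
  | nil => simp [sets] at hk
  | cons b l ih =>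
    rcases k with _ | k
    · simp [sets]
    · simp only [sets, List.getElem_cons_succ, List.getElem_map, List.set_cons_succ]
      rw [ih]

/-- permanent evaluation along columns; `cs` = list of columns, `rs` = list of remaining rows. -/
def go {ι : Type*} : List (ι → ℕ) → List ι → ℕ
  | [], _ => 1
  | _ :: _, [] => 0
  | c :: cs, r :: rs =>
      c r * go cs rs + ((sets r rs).map (fun q => c q.1 * go cs q.2)).sum

theorem permanent_succ {n : ℕ} {R : Type*} [CommSemiring R]
    (M : Matrix (Fin (n + 1)) (Fin (n + 1)) R) :
    M.permanent = ∑ p : Fin (n + 1), M p 0 *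
      (Matrix.of fun (i j : Fin n) => M (Equiv.swap 0 p i.succ) j.succ).permanent := by
  unfold Matrix.permanent
  rw [← Equiv.sum_comp (Equiv.Perm.decomposeFin (n := n)).symm, Fintype.sum_prod_type]
  refine Finset.sum_congr rfl fun p _ => ?_
  rw [Finset.mul_sum]
  refine Finset.sum_congr rfl fun e _ => ?_
  rw [Fin.prod_univ_succ]
  simp [Equiv.Perm.decomposeFin_symm_apply_zero, Equiv.Perm.decomposeFin_symm_apply_succ]

theorem go_eq {ι : Type*} : ∀ (n : ℕ) (cs : List (ι → ℕ)) (rs : List ι) (hc : cs.length = n)
    (hr : rs.length = n),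
    go cs rs = (Matrix.of fun (i j : Fin n) =>
      (cs[(j : ℕ)]'(by rw [hc]; exact j.2)) (rs[(i : ℕ)]'(by rw [hr]; exact i.2))).permanent := by
  intro n
  induction n with
  | zero =>
    intro cs rs hc hr
    rw [List.length_eq_zero_iff] at hc
    subst hc
    simp [go, Matrix.permanent]
  | succ n ih =>
    intro cs rs hc hr
    rcases cs with _ | ⟨c, cs⟩
    · simp at hc
    rcases rs with _ | ⟨r, rs⟩
    · simp at hr
    have hc' : cs.length = n := by simpa using hc
    have hr' : rs.length = n := by simpa using hr
    rw [permanent_succ, Fin.sum_univ_succ]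
    unfold go
    congr 1
    · rw [ih cs rs hc' hr']
      simp only [Matrix.of_apply, Fin.val_zero, List.getElem_cons_zero, Equiv.swap_self,
        Equiv.refl_apply, Fin.val_succ, List.getElem_cons_succ]
      try rfl
    · have hs : (sets r rs).length = n := by rw [length_sets, hr']
      rw [← List.sum_ofFn]
      congr 1
      apply List.ext_getElem
      · simp [hs]
      intro k h1 h2
      simp only [List.getElem_map, List.getElem_ofFn]
      rw [getElem_sets]
      have hk : k < n := by simpa [hs] using h1
      congr 1
      rw [ih cs (rs.set k r) hc' (by simpa using hr')]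
      congr 1
      ext i j
      have key : ∀ (x y : Fin (n + 1)), x = y → ∀ (hx) (hy),
          (r :: rs)[x.1]'hx = (r :: rs)[y.1]'hy := by
        rintro x _ rfl _ _; rfl
      have e : ((Equiv.swap 0 (⟨k, hk⟩ : Fin n).succ) i.succ : Fin (n + 1))
          = if i.1 = k then 0 else i.succ := by
        rw [Equiv.swap_apply_def]
        have : (i.succ = 0) = False := by simp [Fin.succ_ne_zero]
        simp only [this, if_false, Fin.succ_inj]
        by_cases hik : i.1 = k
        · have : i = ⟨k, hk⟩ := Fin.ext hik
          simp [this]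
        · have : ¬ i = ⟨k, hk⟩ := fun h => hik (by rw [h])
          simp [hik, this]
      simp only [Matrix.of_apply, Fin.val_succ, List.getElem_cons_succ]
      refine congrArg _ ?_
      by_cases hik : i.1 = k
      · rw [if_pos hik] at e
        refine Eq.trans ?_ (key _ _ e.symm (by simp) (by
          have := ((Equiv.swap 0 (⟨k, hk⟩ : Fin n).succ) i.succ).2
          simp only [List.length_cons, hr']; exact this))
        simp [hik]
      · rw [if_neg hik] at e
        refine Eq.trans ?_ (key _ _ e.symm (by simp [hr']) (by
          have := ((Equiv.swap 0 (⟨k, hk⟩ : Fin n).succ) i.succ).2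
          simp only [List.length_cons, hr']; exact this))
        simp [Ne.symm hik]

end Pool.Agent.J6H51.PermQ
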